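import Pool.Agent.Run7.h285.V.Stm
import Pool.Agent.Run7.h277.S.SM1
import Pool.Agent.H442R2.EHI.PntErr

/-!
# Project VAR (helper285), piece GVD: the diagonal

`∑_a (∏ uu - ∏ vv)²` over the box of the constant terms is asymptotically `(2 X / log X) ^ k`.
-/

set_option autoImplicit false

namespace Run7.h811.V

open Finset Filter
open Run7.h285.S (Bx uu vv)
open Run7.h285.G (Gd pr)
open Run7.h285.V (S_GVD)
open Pool.Agent.TH892.SW (wt)
open Pool.Agent.H373R2.T7 (pz Vz lamz)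
open Pool.Agent.H442R2.EHI (evt_log_pow evt_log_ge lis pnt_err)
open Pool.Agent.TH892.OW (Vz_log evt_ll S_facts wt_sum)

/-- primes minus weights up to `N` -/
noncomputable def T (N : ℕ) : ℝ := ∑ y ∈ Ioc 0 N, ((if y.Prime then (1 : ℝ) else 0) - wt y)

lemma wt_zero : wt 0 = 0 := by unfold wt; simp

lemma wt_one : wt 1 = 0 := by unfold wt; simp

lemma wt_nn (n : ℕ) : 0 ≤ wt n := Pool.Agent.TH892.SW.wt_nonneg n

lemma wt_le2 (n : ℕ) : wt n ≤ 3 / 2 := by
  rcases Nat.lt_or_ge n 2 with h | h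
  · interval_cases n
    · rw [wt_zero]; norm_num
    · rw [wt_one]; norm_num
  · exact Pool.Agent.TH892.SW.wt_le h

lemma T_eq (N : ℕ) : T N = (((Icc 1 N).filter (fun p : ℕ => p.Prime)).card : ℝ) - lis N := by
  have h0 : Ioc 0 N = Icc 1 N := by ext x; simp only [mem_Ioc, mem_Icc]; omega
  unfold T lis
  rw [h0, sum_sub_distrib]
  congr 1
  · rw [card_filter]; push_cast; rfl
  · have h1 : Icc 2 N ⊆ Icc 1 N := Icc_subset_Icc_left (by norm_num)
    rw [← sum_subset h1]
    · rfl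
    · intro x hx hx2
      rw [mem_Icc] at hx hx2
      have : x = 1 := by omega
      rw [this, wt_one]

lemma T_triv (N : ℕ) : |T N| ≤ 3 * N := by
  unfold T
  refine (abs_sum_le_sum_abs _ _).trans ?_
  calc ∑ y ∈ Ioc 0 N, |(if y.Prime then (1 : ℝ) else 0) - wt y| ≤ ∑ _y ∈ Ioc 0 N, (3 : ℝ) := by
        apply sum_le_sum
        intro y _
        have h1 := wt_nn y
        have h2 := wt_le2 y
        rw [abs_le]
        split_ifs <;> constructor <;> linarith
    _ = 3 * N := by rw [sum_const, Nat.card_Ioc, nsmul_eq_mul, Nat.sub_zero]; ring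

/-- `|T N|` is small for all `N ≤ 2 X log^C X` -/
lemma T_bound (C : ℕ) (η : ℝ) (hη : 0 < η) : ∀ᶠ X : ℕ in atTop, ∀ N : ℕ, (N : ℝ) ≤ 2 * X * Real.log X ^ C →
    |T N| ≤ η * (X / Real.log X) := by
  obtain ⟨K, hK⟩ := pnt_err (C + 2)
  filter_upwards [evt_log_ge 10000, evt_log_ge (|K| * 2 ^ (C + 3) / η), evt_log_ge (3 / η), evt_log_pow 2 (1 / 2) (by norm_num)]
    with X hL hL2 hL3 hL4 N hN
  obtain ⟨hX1, -, -, -, -, -, -⟩ := S_facts X hL
  have hXr : (1 : ℝ) ≤ X := by exact_mod_cast hX1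
  have hX0 : (0 : ℝ) < X := by linarith
  rw [← Real.sqrt_eq_rpow] at hL4
  have hsq : √(X : ℝ) * √(X : ℝ) = X := Real.mul_self_sqrt hX0.le
  have hlogsq : Real.log (√(X : ℝ)) = Real.log X / 2 := Real.log_sqrt hX0.le
  set L := Real.log X with hLd
  have hL0 : 0 < L := by linarith
  have hs0 : 0 < √(X : ℝ) := Real.sqrt_pos.2 hX0
  rcases le_total (N : ℝ) (√(X : ℝ)) with h | h
  · refine (T_triv N).trans ?_
    have h1 : √(X : ℝ) * L ^ 2 ≤ X := by
      calc √(X : ℝ) * L ^ 2 ≤ √(X : ℝ) * √(X : ℝ) := by gcongr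
        _ = X := hsq
    have h2 : 3 ≤ η * L := by
      rw [div_le_iff₀ hη] at hL3
      linarith
    rw [← mul_div_assoc, le_div_iff₀ hL0]
    calc 3 * (N : ℝ) * L ≤ (η * L) * √(X : ℝ) * L := by gcongr
      _ = η * (√(X : ℝ) * L ^ 2) := by ring
      _ ≤ η * X := by gcongr
  · have hN2 : 2 ≤ N := by
      have h1 : (100 : ℝ) ≤ √(X : ℝ) := by
        have : (100 : ℝ) ≤ L ^ 2 := by nlinarith
        linarith
      have : (2 : ℝ) ≤ N := by linarith
      exact_mod_cast this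
    have h1 := hK N hN2
    rw [← T_eq] at h1
    have hN0 : (0 : ℝ) < N := by linarith
    have h2 : L / 2 ≤ Real.log N := by
      rw [← hlogsq]
      exact Real.log_le_log hs0 h
    have h3 : K * (N : ℝ) / Real.log N ^ (C + 2) ≤ |K| * (2 * X * L ^ C) / (L / 2) ^ (C + 2) := by
      apply div_le_div₀ (by positivity) _ (by positivity) (pow_le_pow_left₀ (by positivity) h2 _)
      exact mul_le_mul (le_abs_self K) hN hN0.le (abs_nonneg K)
    refine (h1.trans h3).trans ?_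
    have h4 : |K| * (2 * X * L ^ C) / (L / 2) ^ (C + 2) = (|K| * 2 ^ (C + 3) / L) * (X / L) := by
      rw [div_pow, pow_add L C 2, pow_succ (2 : ℝ) (C + 2)]
      field_simp
    rw [h4]
    apply mul_le_mul_of_nonneg_right _ (by positivity)
    rw [div_le_iff₀ hη] at hL2
    rw [div_le_iff₀ hL0]
    linarith

/-- primes minus weights, both signs -/
noncomputable def g (y : ℤ) : ℝ := uu y - wt y.natAbs

lemma g_neg (y : ℤ) : g (-y) = g y := by unfold g uu; rw [Int.natAbs_neg]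

lemma g_zero : g 0 = 0 := by
  unfold g uu
  rw [Int.natAbs_zero, wt_zero, if_neg Nat.not_prime_zero, sub_zero]

lemma pos_part (a b : ℤ) (S : ℝ) (h : ∀ N : ℕ, (N : ℤ) ≤ max b 0 → |T N| ≤ S) :
    |∑ y ∈ (Icc a b).filter (fun y => 0 < y), g y| ≤ 2 * S := by
  have hS : 0 ≤ S := (abs_nonneg _).trans (h 0 (by simp))
  have e1 : (Icc a b).filter (fun y => 0 < y) = Icc (max a 1) b := by
    ext y
    simp only [mem_filter, mem_Icc]
    omega
  rw [e1]
  rcases lt_or_ge b (max a 1) with hb | hb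
  · rw [Icc_eq_empty (by omega), sum_empty, abs_zero]
    linarith
  · have e2 : ∑ y ∈ Icc (max a 1) b, g y =
        ∑ n ∈ Ioc ((max a 1).toNat - 1) b.toNat, ((if n.Prime then (1 : ℝ) else 0) - wt n) := by
      refine sum_nbij' (fun y => y.toNat) (fun n => (n : ℤ)) ?_ ?_ ?_ ?_ ?_
      · intro y hy
        rw [mem_Icc] at hy
        rw [mem_Ioc]
        omega
      · intro n hn
        rw [mem_Ioc] at hn
        rw [mem_Icc]
        omega
      · intro y hy
        rw [mem_Icc] at hy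
        show ((y.toNat : ℕ) : ℤ) = y
        omega
      · intro n hn
        exact Int.toNat_natCast n
      · intro y hy
        rw [mem_Icc] at hy
        unfold g uu
        rw [show y.natAbs = y.toNat by omega]
    have e3 : ∑ n ∈ Ioc ((max a 1).toNat - 1) b.toNat, ((if n.Prime then (1 : ℝ) else 0) - wt n) =
        T b.toNat - T ((max a 1).toNat - 1) := by
      unfold T
      rw [← sum_Ioc_consecutive _ (Nat.zero_le _) (show (max a 1).toNat - 1 ≤ b.toNat by omega)]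
      ring
    rw [e2, e3]
    have h1 := h b.toNat (by omega)
    have h2 := h ((max a 1).toNat - 1) (by omega)
    refine (abs_sub _ _).trans ?_
    linarith

lemma both (a b : ℤ) (S : ℝ) (B : ℕ) (hb : b ≤ B) (ha : -a ≤ B) (h : ∀ N : ℕ, N ≤ B → |T N| ≤ S) :
    |∑ y ∈ Icc a b, g y| ≤ 4 * S := by
  have h1 := pos_part a b S (fun N hN => h N (by omega))
  have h2 := pos_part (-b) (-a) S (fun N hN => h N (by omega))
  rw [← sum_filter_add_sum_filter_not (Icc a b) (fun y => 0 < y)]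
  have e1 : ∑ y ∈ (Icc a b).filter (fun y => ¬ 0 < y), g y =
      ∑ y ∈ (Icc (-b) (-a)).filter (fun y => 0 < y), g y := by
    have e2 : ∑ y ∈ (Icc a b).filter (fun y => ¬ 0 < y), g y =
        ∑ y ∈ (Icc (-b) (-a)).filter (fun y => 0 ≤ y), g y := by
      refine sum_nbij' (fun y => -y) (fun y => -y) ?_ ?_ ?_ ?_ ?_
      · intro y hy
        rw [mem_filter, mem_Icc] at hy ⊢
        omega
      · intro y hy
        rw [mem_filter, mem_Icc] at hy ⊢
        omega
      · intro y _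
        show - -y = y
        omega
      · intro y _
        show - -y = y
        omega
      · intro y _
        exact (g_neg y).symm
    rw [e2]
    symm
    apply sum_subset
    · intro y hy
      rw [mem_filter] at hy ⊢
      exact ⟨hy.1, hy.2.le⟩
    · intro y hy hy2
      rw [mem_filter] at hy hy2
      have : y = 0 := by
        by_contra hne
        exact hy2 ⟨hy.1, lt_of_le_of_ne hy.2 (Ne.symm hne)⟩
      rw [this, g_zero]
  rw [e1]
  refine (abs_add_le _ _).trans ?_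
  linarith

lemma shift (v : ℤ) (X : ℕ) (F : ℤ → ℝ) :
    ∑ c ∈ Icc (-(X : ℤ)) X, F (v + c) = ∑ y ∈ Icc (v - X) (v + X), F y := by
  refine sum_nbij' (fun c => v + c) (fun y => y - v) ?_ ?_ ?_ ?_ ?_
  · intro c hc
    rw [mem_Icc] at hc ⊢
    constructor <;> linarith
  · intro y hy
    rw [mem_Icc] at hy ⊢
    constructor <;> linarith
  · intro c _
    show v + c - v = c
    ring
  · intro y _
    show v + (y - v) = y
    ring
  · intro c _; rfl

/-- the sum of the weights -/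
lemma wt_main (C : ℕ) (η : ℝ) (hη : 0 < η) : ∀ᶠ X : ℕ in atTop, ∀ v : ℤ, (v.natAbs : ℝ) ≤ X * Real.log X ^ C →
    |∑ y ∈ Icc (v - X) (v + X), wt y.natAbs - 2 * X / Real.log X| ≤ η * (X / Real.log X) := by
  filter_upwards [evt_log_ge 10000, evt_ll 1 1 (24 * (C + 2) / η + 2 * (C + 2)) (by norm_num), evt_log_ge (24 / η),
    evt_log_pow 2 (1 / 2) (by norm_num)] with X hL hL2 hL3 hL4 v hv
  obtain ⟨hX1, -, -, -, -, -, -⟩ := S_facts X hL
  have hXr : (1 : ℝ) ≤ X := by exact_mod_cast hX1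
  have hX0 : (0 : ℝ) < X := by linarith
  rw [← Real.sqrt_eq_rpow] at hL4
  have hsq : √(X : ℝ) * √(X : ℝ) = X := Real.mul_self_sqrt hX0.le
  have hexp : Real.exp (Real.log X) = X := Real.exp_log hX0
  set L := Real.log X with hLd
  have hL0 : 0 < L := by linarith
  have hL1 : 1 ≤ L := by linarith
  set D := ((C : ℝ) + 2) * Real.log L with hD
  have hlL : 0 < Real.log L := Real.log_pos (by linarith)
  have hD0 : 0 < D := by positivity
  rw [Real.rpow_one, pow_one] at hL2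
  have hD1 : 24 * D ≤ η * L := by
    have h1 : 24 * D / η ≤ L := by
      have : 24 * D / η = 24 * (C + 2) / η * Real.log L := by rw [hD]; ring
      have h2 : 0 ≤ 2 * ((C : ℝ) + 2) * Real.log L := by positivity
      nlinarith
    rw [div_le_iff₀ hη] at h1
    linarith
  have hD2 : 2 * D ≤ L := by
    have h2 : 0 ≤ 24 * ((C : ℝ) + 2) / η * Real.log L := by positivity
    have : 2 * D = 2 * (C + 2) * Real.log L := by rw [hD]; ring
    nlinarith
  have hηL : 24 ≤ η * L := by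
    rw [div_le_iff₀ hη] at hL3
    linarith
  have hXL2 : L ^ 2 ≤ X := by
    have h1 : (1 : ℝ) ≤ √(X : ℝ) := by rw [Real.one_le_sqrt]; exact hXr
    nlinarith
  have hXL : L ≤ X := by nlinarith
  set A := Icc (v - (X : ℤ)) (v + X) with hA
  have hcard : (#A : ℝ) = 2 * X + 1 := by
    rw [hA, Int.card_Icc]
    have : (v + (X : ℤ) + 1 - (v - X)).toNat = 2 * X + 1 := by omega
    rw [this]; push_cast; ring
  set t := (X : ℝ) / L ^ 2 with ht
  have ht0 : 0 < t := by positivity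
  have ht1 : 1 ≤ t := by rw [ht, one_le_div (by positivity)]; exact hXL2
  -- the few small members
  have hsmall : (#(A.filter (fun y => (y.natAbs : ℝ) < t)) : ℝ) ≤ 2 * t + 1 := by
    have h1 : A.filter (fun y => (y.natAbs : ℝ) < t) ⊆ Icc (-(⌊t⌋₊ : ℤ)) ⌊t⌋₊ := by
      intro y hy
      rw [mem_filter] at hy
      have h2 : y.natAbs ≤ ⌊t⌋₊ := Nat.le_floor hy.2.le
      rw [mem_Icc]
      omega
    have h2 := card_le_card h1
    rw [Int.card_Icc] at h2
    have h3 : ((⌊t⌋₊ : ℤ) + 1 - -(⌊t⌋₊ : ℤ)).toNat = 2 * ⌊t⌋₊ + 1 := by omega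
    rw [h3] at h2
    have h4 : (#(A.filter (fun y => (y.natAbs : ℝ) < t)) : ℝ) ≤ 2 * (⌊t⌋₊ : ℝ) + 1 := by exact_mod_cast h2
    have h5 := Nat.floor_le ht0.le
    linarith
  have hbig : ∀ y ∈ A, t ≤ (y.natAbs : ℝ) → |wt y.natAbs - 1 / L| ≤ 2 * D / L ^ 2 := by
    intro y hy hty
    have hy0 : (0 : ℝ) < y.natAbs := by linarith
    have h1 : L - D ≤ Real.log y.natAbs := by
      have h2 : Real.log t ≤ Real.log y.natAbs := Real.log_le_log ht0 hty
      have h3 : Real.log t = L - 2 * Real.log L := by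
        rw [ht, Real.log_div hX0.ne' (by positivity), Real.log_pow]
        push_cast; ring
      have h4 : 2 * Real.log L ≤ D := by
        rw [hD]
        have : 0 ≤ (C : ℝ) * Real.log L := by positivity
        nlinarith
      linarith
    have h2 : Real.log y.natAbs ≤ L + D := by
      have h3 : (y.natAbs : ℝ) ≤ L * (X * L ^ C) := by
        rw [hA, mem_Icc] at hy
        have h4 : y.natAbs ≤ v.natAbs + X := by omega
        have h5 : (y.natAbs : ℝ) ≤ v.natAbs + X := by exact_mod_cast h4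
        have h6 : (1 : ℝ) ≤ L ^ C := one_le_pow₀ hL1
        have h7 : (X : ℝ) ≤ X * L ^ C := le_mul_of_one_le_right hX0.le h6
        nlinarith
      have h4 : Real.log y.natAbs ≤ Real.log (L * (X * L ^ C)) := Real.log_le_log hy0 h3
      have h5 : Real.log (L * (X * L ^ C)) = Real.log L + (L + C * Real.log L) := by
        rw [Real.log_mul hL0.ne' (by positivity), Real.log_mul hX0.ne' (by positivity), Real.log_pow]
      have h6 : Real.log L + (L + C * Real.log L) ≤ L + D := by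
        rw [hD]; nlinarith
      linarith
    have h3 : 0 < Real.log y.natAbs := by linarith
    have h4 : L / 2 ≤ Real.log y.natAbs := by linarith
    unfold wt
    rw [div_sub_div _ _ h3.ne' hL0.ne', abs_div, abs_of_pos (mul_pos h3 hL0), one_mul, mul_one]
    have h5 : |L - Real.log y.natAbs| ≤ D := by
      rw [abs_le]; constructor <;> linarith
    calc |L - Real.log y.natAbs| / (Real.log y.natAbs * L) ≤ D / ((L / 2) * L) := by
          apply div_le_div₀ hD0.le h5 (by positivity)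
          exact mul_le_mul_of_nonneg_right h4 hL0.le
      _ = 2 * D / L ^ 2 := by field_simp
  have hall : ∀ y ∈ A, |wt y.natAbs - 1 / L| ≤ 2 * D / L ^ 2 + (if (y.natAbs : ℝ) < t then (2 : ℝ) else 0) := by
    intro y hy
    have hDL : 0 ≤ 2 * D / L ^ 2 := by positivity
    split_ifs with h
    · have h1 := wt_nn y.natAbs
      have h2 := wt_le2 y.natAbs
      have h3 : 1 / L ≤ 1 := by rw [div_le_one hL0]; exact hL1
      have h4 : 0 ≤ 1 / L := by positivity
      have : |wt y.natAbs - 1 / L| ≤ 2 := by rw [abs_le]; constructor <;> linarith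
      linarith
    · rw [add_zero]
      exact hbig y hy (not_lt.1 h)
  have hsum : |∑ y ∈ A, (wt y.natAbs - 1 / L)| ≤ (2 * X + 1) * (2 * D / L ^ 2) + (2 * t + 1) * 2 := by
    refine (abs_sum_le_sum_abs _ _).trans ((sum_le_sum hall).trans ?_)
    rw [sum_add_distrib, sum_const, nsmul_eq_mul, hcard, ← sum_filter, sum_const, nsmul_eq_mul]
    linarith
  have heq : ∑ y ∈ A, wt y.natAbs - 2 * X / L = ∑ y ∈ A, (wt y.natAbs - 1 / L) + 1 / L := by
    rw [sum_sub_distrib, sum_const, nsmul_eq_mul, hcard]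
    ring
  rw [heq]
  refine (abs_add_le _ _).trans ?_
  rw [abs_of_pos (show (0 : ℝ) < 1 / L by positivity)]
  have t1 : (2 * (X : ℝ) + 1) * (2 * D / L ^ 2) ≤ η / 4 * (X / L) := by
    have h1 : (2 * (X : ℝ) + 1) * (2 * D / L ^ 2) ≤ (3 * X) * (2 * D / L ^ 2) := by
      apply mul_le_mul_of_nonneg_right _ (by positivity)
      linarith
    refine h1.trans ?_
    have h2 : (3 * (X : ℝ)) * (2 * D / L ^ 2) = (24 * D) / (4 * L) * (X / L) := by field_simp; ring
    rw [h2]
    apply mul_le_mul_of_nonneg_right _ (by positivity)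
    rw [div_le_iff₀ (by positivity)]
    linarith
  have t2 : (2 * t + 1) * 2 ≤ η / 4 * (X / L) := by
    have h1 : (2 * t + 1) * 2 ≤ 6 * t := by linarith
    refine h1.trans ?_
    have h2 : 6 * t = (6 / L) * (X / L) := by rw [ht]; field_simp
    rw [h2]
    apply mul_le_mul_of_nonneg_right _ (by positivity)
    rw [div_le_iff₀ hL0]
    linarith
  have t3 : 1 / L ≤ η / 4 * (X / L) := by
    have h2 : η / 4 * (X / L) = (η * X / 4) / L := by ring
    rw [h2]
    apply div_le_div_of_nonneg_right _ hL0.le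
    nlinarith
  have t4 : 0 ≤ η * (X / L) := by positivity
  linarith

/-- the number of the primes -/
lemma A_bound (C : ℕ) (η : ℝ) (hη : 0 < η) : ∀ᶠ X : ℕ in atTop, ∀ v : ℤ, (v.natAbs : ℝ) ≤ X * Real.log X ^ C →
    |∑ c ∈ Icc (-(X : ℤ)) X, uu (v + c) ^ 2 - 2 * X / Real.log X| ≤ η * (X / Real.log X) := by
  filter_upwards [evt_log_ge 10000, T_bound C (η / 8) (by positivity), wt_main C (η / 2) (by positivity)] with X hL h1 h2 v hv
  obtain ⟨hX1, -, -, -, -, -, -⟩ := S_facts X hL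
  have hXr : (1 : ℝ) ≤ X := by exact_mod_cast hX1
  have hX0 : (0 : ℝ) < X := by linarith
  have h6 : (1 : ℝ) ≤ Real.log X ^ C := one_le_pow₀ (by linarith)
  have h7 : (X : ℝ) ≤ X * Real.log X ^ C := le_mul_of_one_le_right hX0.le h6
  rw [shift v X (fun y => uu y ^ 2)]
  have h3 := both (v - X) (v + X) (η / 8 * (X / Real.log X)) (v.natAbs + X) (by omega) (by omega) (by
    intro N hN
    apply h1 N
    have h4 : (N : ℝ) ≤ v.natAbs + X := by exact_mod_cast hN
    linarith)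
  have h4 := h2 v hv
  have h5 : ∑ y ∈ Icc (v - (X : ℤ)) (v + X), uu y ^ 2 - 2 * X / Real.log X =
      ∑ y ∈ Icc (v - (X : ℤ)) (v + X), g y +
        (∑ y ∈ Icc (v - (X : ℤ)) (v + X), wt y.natAbs - 2 * X / Real.log X) := by
    have h8 : ∑ y ∈ Icc (v - (X : ℤ)) (v + X), uu y ^ 2 =
        ∑ y ∈ Icc (v - (X : ℤ)) (v + X), g y + ∑ y ∈ Icc (v - (X : ℤ)) (v + X), wt y.natAbs := by
      rw [← sum_add_distrib]
      apply sum_congr rfl
      intro y _
      unfold g
      have : uu y ^ 2 = uu y := by unfold uu; split_ifs <;> norm_num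
      rw [this]; ring
    rw [h8]; ring
  rw [h5]
  refine (abs_add_le _ _).trans ?_
  linarith

lemma lamz_le' (z n : ℕ) : lamz z n ≤ (Vz z)⁻¹ := by
  have h := (inv_pos.2 (Pool.Agent.H373R2.T7.Vz_pos z)).le
  unfold lamz
  split_ifs
  · exact le_rfl
  · exact h

/-- the sum of the squares of the weights, one sign -/
lemma wt2_one (X : ℕ) (hL : 10000 ≤ Real.log X) (hLX : Real.log X ^ 2 ≤ √(X : ℝ)) (v : ℤ) :
    ∑ y ∈ Icc (v - (X : ℤ)) (v + X), (if 2 ≤ y then wt y.toNat ^ 2 else 0) ≤ 21 * (X / Real.log X ^ 2) := by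
  obtain ⟨hX1, hs1, hs2, hs3, hs4, hs5, hs6⟩ := S_facts X hL
  have hX0 : (1 : ℝ) ≤ X := by exact_mod_cast hX1
  have h2 := wt_sum X (Nat.sqrt X) (by omega) (v - X) (Icc (v - X) (v + X))
    (fun y hy => by rw [mem_Icc] at hy; constructor <;> linarith [hy.1, hy.2])
  rw [← sum_filter]
  refine h2.trans ?_
  set L := Real.log X with hLdef
  have hL0 : 0 < L := by linarith
  have hT0 : 0 < Real.log (Nat.sqrt X : ℝ) := by nlinarith
  have h4 : (1 / Real.log (Nat.sqrt X : ℝ)) ^ 2 ≤ 25 / 4 / L ^ 2 := by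
    rw [div_pow, one_pow, div_le_div_iff₀ (by positivity) (by positivity)]
    nlinarith
  have h5 : (Nat.sqrt X : ℝ) ≤ X / L ^ 2 := by
    rw [le_div_iff₀ (by positivity)]
    calc (Nat.sqrt X : ℝ) * L ^ 2 ≤ √(X : ℝ) * √(X : ℝ) := by gcongr
      _ = X := Real.mul_self_sqrt (by linarith)
  calc 9 / 4 * (Nat.sqrt X : ℝ) + (2 * (X : ℝ) + 1) * (1 / Real.log (Nat.sqrt X : ℝ)) ^ 2
      ≤ 9 / 4 * (X / L ^ 2) + (3 * X) * (25 / 4 / L ^ 2) := by
        apply add_le_add
        · linarith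
        · apply mul_le_mul _ h4 (by positivity) (by positivity)
          linarith
    _ = 21 * (X / L ^ 2) := by ring

lemma wt2 (X : ℕ) (hL : 10000 ≤ Real.log X) (hLX : Real.log X ^ 2 ≤ √(X : ℝ)) (v : ℤ) :
    ∑ y ∈ Icc (v - (X : ℤ)) (v + X), wt y.natAbs ^ 2 ≤ 42 * (X / Real.log X ^ 2) := by
  have h1 := wt2_one X hL hLX v
  have h2 := wt2_one X hL hLX (-v)
  have e1 : ∑ y ∈ Icc (-v - (X : ℤ)) (-v + X), (if 2 ≤ y then wt y.toNat ^ 2 else 0) =
      ∑ y ∈ Icc (v - (X : ℤ)) (v + X), (if 2 ≤ -y then wt (-y).toNat ^ 2 else 0) := by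
    refine sum_nbij' (fun y => -y) (fun y => -y) ?_ ?_ ?_ ?_ ?_
    · intro y hy
      rw [mem_Icc] at hy ⊢
      constructor <;> linarith
    · intro y hy
      rw [mem_Icc] at hy ⊢
      constructor <;> linarith
    · intro y _
      show - -y = y
      ring
    · intro y _
      show - -y = y
      ring
    · intro y _
      simp only [neg_neg]
  rw [e1] at h2
  have h3 : ∑ y ∈ Icc (v - (X : ℤ)) (v + X), wt y.natAbs ^ 2 ≤
      ∑ y ∈ Icc (v - (X : ℤ)) (v + X), ((if 2 ≤ y then wt y.toNat ^ 2 else 0) +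
        (if 2 ≤ -y then wt (-y).toNat ^ 2 else 0)) := by
    apply sum_le_sum
    intro y _
    rcases lt_trichotomy y 0 with hy | hy | hy
    · rw [if_neg (show ¬ 2 ≤ y by omega), zero_add]
      split_ifs with h
      · rw [show (-y).toNat = y.natAbs by omega]
      · have : y.natAbs = 1 := by omega
        rw [this, wt_one]
        norm_num
    · rw [hy, Int.natAbs_zero, wt_zero]
      norm_num
    · rw [if_neg (show ¬ 2 ≤ -y by omega), add_zero]
      split_ifs with h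
      · rw [show y.toNat = y.natAbs by omega]
      · have : y.natAbs = 1 := by omega
        rw [this, wt_one]
        norm_num
  refine h3.trans ?_
  rw [sum_add_distrib]
  linarith

/-- the model has a small mean square -/
lemma B_bound (E : ℕ) (hE : 1 ≤ E) (η : ℝ) (hη : 0 < η) : ∀ᶠ X : ℕ in atTop, ∀ v : ℤ,
    ∑ c ∈ Icc (-(X : ℤ)) X, vv ⌊Real.log X ^ E⌋₊ (v + c) ^ 2 ≤ η * (X / Real.log X) := by
  obtain ⟨CV, hCV1, hCV⟩ := Vz_log
  filter_upwards [evt_log_ge 10000, evt_ll 4 1 (42 * CV ^ 2 * (E : ℝ) ^ 4 / η) (by norm_num),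
    evt_log_pow 2 (1 / 2) (by norm_num)] with X hL hll hLX v
  rw [← Real.sqrt_eq_rpow] at hLX
  obtain ⟨hX1, -, -, -, -, -, -⟩ := S_facts X hL
  have hX0 : (1 : ℝ) ≤ X := by exact_mod_cast hX1
  rw [shift v X (fun y => vv ⌊Real.log X ^ E⌋₊ y ^ 2)]
  have hw := wt2 X hL hLX v
  set L := Real.log X with hLdef
  have hL1 : 1 ≤ L := by linarith
  have hL0 : 0 < L := by linarith
  set z := ⌊L ^ E⌋₊ with hz
  have hLE : L ≤ L ^ E := by
    calc L = L ^ 1 := (pow_one _).symm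
      _ ≤ L ^ E := pow_le_pow_right₀ hL1 hE
  have hz3 : 3 ≤ z := by
    rw [hz]; apply Nat.le_floor; push_cast; linarith
  have hzle : (z : ℝ) ≤ L ^ E := Nat.floor_le (by positivity)
  have hlogz : Real.log z ≤ E * Real.log L := by
    have h1 : (0 : ℝ) < z := by exact_mod_cast (by omega : 0 < z)
    have := Real.log_le_log h1 hzle
    rwa [Real.log_pow] at this
  have hlz0 : 0 ≤ Real.log z := Real.log_natCast_nonneg z
  have hV0 : 0 ≤ (Vz z)⁻¹ := (inv_pos.2 (Pool.Agent.H373R2.T7.Vz_pos z)).le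
  have hV : (Vz z)⁻¹ ^ 2 ≤ CV ^ 2 * (E : ℝ) ^ 4 * Real.log L ^ 4 := by
    have h1 := hCV z hz3
    calc (Vz z)⁻¹ ^ 2 ≤ (CV * Real.log z ^ 2) ^ 2 := pow_le_pow_left₀ hV0 h1 2
      _ ≤ (CV * (E * Real.log L) ^ 2) ^ 2 := by gcongr
      _ = CV ^ 2 * (E : ℝ) ^ 4 * Real.log L ^ 4 := by ring
  have h1 : ∑ y ∈ Icc (v - (X : ℤ)) (v + X), vv z y ^ 2 ≤
      ∑ y ∈ Icc (v - (X : ℤ)) (v + X), (Vz z)⁻¹ ^ 2 * wt y.natAbs ^ 2 := by
    apply sum_le_sum
    intro y _
    unfold vv
    rw [mul_pow]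
    apply mul_le_mul_of_nonneg_right _ (sq_nonneg _)
    exact pow_le_pow_left₀ (Pool.Agent.H373R2.T7.lamz_nonneg z _) (lamz_le' z _) 2
  refine h1.trans ?_
  rw [← mul_sum]
  have h2 : (Vz z)⁻¹ ^ 2 * ∑ y ∈ Icc (v - (X : ℤ)) (v + X), wt y.natAbs ^ 2 ≤
      (CV ^ 2 * (E : ℝ) ^ 4 * Real.log L ^ 4) * (42 * (X / L ^ 2)) := by
    apply mul_le_mul hV hw (sum_nonneg fun _ _ => sq_nonneg _)
    have : 0 ≤ Real.log L := Real.log_nonneg hL1
    positivity
  refine h2.trans ?_
  rw [Real.rpow_one] at hll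
  have h3 : 42 * CV ^ 2 * (E : ℝ) ^ 4 * Real.log L ^ 4 ≤ η * L := by
    have h4 : 42 * CV ^ 2 * (E : ℝ) ^ 4 / η * Real.log L ^ 4 = 42 * CV ^ 2 * (E : ℝ) ^ 4 * Real.log L ^ 4 / η := by ring
    rw [h4, div_le_iff₀ hη] at hll
    linarith
  have h5 : (CV ^ 2 * (E : ℝ) ^ 4 * Real.log L ^ 4) * (42 * (X / L ^ 2)) =
      (42 * CV ^ 2 * (E : ℝ) ^ 4 * Real.log L ^ 4) * (X / L ^ 2) := by ring
  have h6 : η * (X / L) = (η * L) * (X / L ^ 2) := by field_simp
  rw [h5, h6]
  exact mul_le_mul_of_nonneg_right h3 (by positivity)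

/-! ### the products -/

lemma sum_prod {k : ℕ} (F : Fin k → ℤ → ℝ) (X : ℕ) :
    ∑ a ∈ Bx k X, ∏ l, F l (a l) = ∏ l, ∑ c ∈ Icc (-(X : ℤ)) X, F l c := by
  unfold Bx
  rw [prod_univ_sum]

lemma pow_up (η : ℝ) (h0 : 0 ≤ η) (h1 : η ≤ 1) (k : ℕ) : (1 + η) ^ k ≤ 1 + (2 ^ k - 1) * η := by
  induction k with
  | zero => simp
  | succ k ih =>
    have h2 : (1 : ℝ) ≤ 2 ^ k := one_le_pow₀ (by norm_num)
    calc (1 + η) ^ (k + 1) = (1 + η) ^ k * (1 + η) := pow_succ _ _
      _ ≤ (1 + (2 ^ k - 1) * η) * (1 + η) := mul_le_mul_of_nonneg_right ih (by linarith)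
      _ = 1 + η + (2 ^ k - 1) * η + (2 ^ k - 1) * (η * η) := by ring
      _ ≤ 1 + η + (2 ^ k - 1) * η + (2 ^ k - 1) * η := by
          have : η * η ≤ η := by nlinarith
          have h3 : (2 ^ k - 1) * (η * η) ≤ (2 ^ k - 1) * η := mul_le_mul_of_nonneg_left this (by linarith)
          linarith
      _ = _ := by rw [pow_succ]; ring

/-- **GVD** for at least one polynomial -/
theorem gvd {k : ℕ} (hk : 1 ≤ k) (f : Fin k → Polynomial ℤ) : S_GVD f := by
  intro ε C E hε hE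
  -- the parameters
  obtain ⟨δ, hδ⟩ : ∃ δ, δ = min ε 1 / 8 := ⟨_, rfl⟩
  have hm0 : 0 < min ε 1 := lt_min hε one_pos
  have hδ0 : 0 < δ := by rw [hδ]; positivity
  have hδ1 : δ ≤ 1 / 8 := by rw [hδ]; linarith [min_le_right ε 1]
  have hδε : 8 * δ ≤ ε := by rw [hδ]; linarith [min_le_left ε 1]
  obtain ⟨η, hη⟩ : ∃ η, η = δ ^ 2 / 2 ^ k := ⟨_, rfl⟩
  have h2k : (1 : ℝ) ≤ 2 ^ k := one_le_pow₀ (by norm_num)
  have hη0 : 0 < η := by rw [hη]; positivity
  have hηk : 2 ^ k * η = δ ^ 2 := by rw [hη]; field_simp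
  have hη2 : η ≤ δ ^ 2 := by
    rw [hη]; exact div_le_self (by positivity) h2k
  have hδ2 : δ ^ 2 ≤ δ := by nlinarith
  have hη1 : η ≤ 1 := by linarith
  have hev := ((A_bound C η hη0).and ((B_bound E hE η hη0).and (evt_log_ge 10000))).exists_forall_of_atTop
  obtain ⟨X₀, hX₀⟩ := hev
  refine ⟨X₀, fun X hX n hn => ?_⟩
  obtain ⟨hA, hB, hL⟩ := hX₀ X hX
  obtain ⟨hX1, -, -, -, -, -, -⟩ := S_facts X hL
  have hXr : (1 : ℝ) ≤ X := by exact_mod_cast hX1
  set L := Real.log X with hLd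
  have hL0 : 0 < L := by linarith
  set z := ⌊L ^ E⌋₊ with hz
  set Q := 2 * (X : ℝ) / L with hQ
  have hQ0 : 0 < Q := by positivity
  have hXQ : (X : ℝ) / L ≤ Q := by
    rw [hQ]
    apply div_le_div_of_nonneg_right _ hL0.le
    linarith
  have hXL0 : 0 < (X : ℝ) / L := by positivity
  -- the squares of the products
  set a1 := ∏ l, ∑ c ∈ Icc (-(X : ℤ)) X, uu ((f l).eval (n : ℤ) + c) ^ 2 with ha1
  set b1 := ∏ l, ∑ c ∈ Icc (-(X : ℤ)) X, vv z ((f l).eval (n : ℤ) + c) ^ 2 with hb1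
  have ea : ∑ a ∈ Bx k X, pr f (fun _ => uu) a n ^ 2 = a1 := by
    rw [ha1, ← sum_prod (fun l c => uu ((f l).eval (n : ℤ) + c) ^ 2) X]
    apply sum_congr rfl
    intro a _
    unfold pr
    rw [prod_pow]
  have eb : ∑ a ∈ Bx k X, pr f (fun _ => vv z) a n ^ 2 = b1 := by
    rw [hb1, ← sum_prod (fun l c => vv z ((f l).eval (n : ℤ) + c) ^ 2) X]
    apply sum_congr rfl
    intro a _
    unfold pr
    rw [prod_pow]
  have ha_up : a1 ≤ ((1 + η) * Q) ^ k := by
    rw [ha1]
    calc ∏ l, ∑ c ∈ Icc (-(X : ℤ)) X, uu ((f l).eval (n : ℤ) + c) ^ 2 ≤ ∏ _l : Fin k, (1 + η) * Q := by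
          apply Finset.prod_le_prod
          · intro l _; exact sum_nonneg fun _ _ => sq_nonneg _
          · intro l _
            have h1 := (abs_le.1 (hA _ (hn l))).2
            have h2 : η * (X / L) ≤ η * Q := mul_le_mul_of_nonneg_left hXQ hη0.le
            linarith
      _ = _ := by rw [prod_const, card_univ, Fintype.card_fin]
  have ha_lo : ((1 - η) * Q) ^ k ≤ a1 := by
    rw [ha1]
    calc ((1 - η) * Q) ^ k = ∏ _l : Fin k, (1 - η) * Q := by rw [prod_const, card_univ, Fintype.card_fin]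
      _ ≤ ∏ l, ∑ c ∈ Icc (-(X : ℤ)) X, uu ((f l).eval (n : ℤ) + c) ^ 2 := by
          apply Finset.prod_le_prod
          · intro l _
            exact mul_nonneg (by linarith) hQ0.le
          · intro l _
            have h1 := (abs_le.1 (hA _ (hn l))).1
            have h2 : η * (X / L) ≤ η * Q := mul_le_mul_of_nonneg_left hXQ hη0.le
            linarith
  have hb_up : b1 ≤ (η * Q) ^ k := by
    rw [hb1]
    calc ∏ l, ∑ c ∈ Icc (-(X : ℤ)) X, vv z ((f l).eval (n : ℤ) + c) ^ 2 ≤ ∏ _l : Fin k, η * Q := by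
          apply Finset.prod_le_prod
          · intro l _; exact sum_nonneg fun _ _ => sq_nonneg _
          · intro l _
            exact (hB _).trans (mul_le_mul_of_nonneg_left hXQ hη0.le)
      _ = _ := by rw [prod_const, card_univ, Fintype.card_fin]
  have hb0 : 0 ≤ b1 := by
    rw [hb1]; exact prod_nonneg fun l _ => sum_nonneg fun _ _ => sq_nonneg _
  have hQk : 0 < Q ^ k := by positivity
  -- the numbers
  have hup : a1 ≤ (1 + δ) * Q ^ k := by
    refine ha_up.trans ?_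
    rw [mul_pow]
    apply mul_le_mul_of_nonneg_right _ hQk.le
    have h1 := pow_up η hη0.le hη1 k
    nlinarith
  have hlo : (1 - δ) * Q ^ k ≤ a1 := by
    refine le_trans ?_ ha_lo
    rw [mul_pow]
    apply mul_le_mul_of_nonneg_right _ hQk.le
    have h1 := one_add_mul_le_pow (show (-2 : ℝ) ≤ -η by linarith) k
    have h2 : (k : ℝ) ≤ 2 ^ k := by exact_mod_cast (Nat.lt_two_pow_self).le
    have h3 : (k : ℝ) * η ≤ 2 ^ k * η := mul_le_mul_of_nonneg_right h2 hη0.le
    have h4 : (1 - η) ^ k = (1 + -η) ^ k := by rw [← sub_eq_add_neg]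
    rw [h4]
    linarith
  have hb2 : b1 ≤ δ ^ 2 * Q ^ k := by
    refine hb_up.trans ?_
    rw [mul_pow]
    apply mul_le_mul_of_nonneg_right _ hQk.le
    calc η ^ k ≤ η ^ 1 := pow_le_pow_of_le_one hη0.le hη1 hk
      _ = η := pow_one _
      _ ≤ δ ^ 2 := hη2
  -- the cross term
  have hcross : |∑ a ∈ Bx k X, 2 * (pr f (fun _ => uu) a n * pr f (fun _ => vv z) a n)| ≤ δ * a1 + b1 / δ := by
    refine (abs_sum_le_sum_abs _ _).trans ?_
    calc ∑ a ∈ Bx k X, |2 * (pr f (fun _ => uu) a n * pr f (fun _ => vv z) a n)|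
        ≤ ∑ a ∈ Bx k X, (δ * pr f (fun _ => uu) a n ^ 2 + pr f (fun _ => vv z) a n ^ 2 / δ) := by
          apply sum_le_sum
          intro a _
          generalize pr f (fun _ => uu) a n = x
          generalize pr f (fun _ => vv z) a n = y
          have h1 : δ * x ^ 2 + y ^ 2 / δ = (δ ^ 2 * x ^ 2 + y ^ 2) / δ := by field_simp
          rw [h1, le_div_iff₀ hδ0]
          have h2 : |2 * (x * y)| * δ = 2 * (δ * |x| * |y|) := by
            rw [abs_mul, abs_mul, abs_two]; ring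
          rw [h2]
          have h3 := sq_nonneg (δ * |x| - |y|)
          have h4 : |x| ^ 2 = x ^ 2 := sq_abs x
          have h5 : |y| ^ 2 = y ^ 2 := sq_abs y
          nlinarith
      _ = δ * a1 + b1 / δ := by
          rw [sum_add_distrib, ← mul_sum, ← sum_div, ea, eb]
  have hexp : ∑ a ∈ Bx k X, (pr f (fun _ => uu) a n - pr f (fun _ => vv z) a n) ^ 2 =
      a1 - ∑ a ∈ Bx k X, 2 * (pr f (fun _ => uu) a n * pr f (fun _ => vv z) a n) + b1 := by
    rw [← ea, ← eb, ← sum_sub_distrib, ← sum_add_distrib]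
    apply sum_congr rfl
    intro a _
    ring
  rw [hexp]
  have hbd : b1 / δ ≤ δ * Q ^ k := by
    rw [div_le_iff₀ hδ0]
    calc b1 ≤ δ ^ 2 * Q ^ k := hb2
      _ = δ * Q ^ k * δ := by ring
  have hda : δ * a1 ≤ 2 * (δ * Q ^ k) := by
    calc δ * a1 ≤ δ * ((1 + δ) * Q ^ k) := mul_le_mul_of_nonneg_left hup hδ0.le
      _ = (1 + δ) * (δ * Q ^ k) := by ring
      _ ≤ 2 * (δ * Q ^ k) := by
          apply mul_le_mul_of_nonneg_right _ (by positivity)
          linarith
  have hb3 : b1 ≤ δ * Q ^ k := hb2.trans (mul_le_mul_of_nonneg_right hδ2 hQk.le)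
  have hfin : 8 * (δ * Q ^ k) ≤ ε * Q ^ k := by
    calc 8 * (δ * Q ^ k) = (8 * δ) * Q ^ k := by ring
      _ ≤ ε * Q ^ k := mul_le_mul_of_nonneg_right hδε hQk.le
  obtain ⟨c1, c2⟩ := abs_le.1 hcross
  have hδQ : 0 < δ * Q ^ k := by positivity
  rw [abs_le]
  constructor
  · nlinarith
  · nlinarith

end Run7.h811.V
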